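import Mathlib

/-!
# The cops and robbers pebbling game

Definitions for `MP_d8b757_co`: turns of the cops, the game, the cop pebbling number, and the
simplest moves (a pile of cops walking along an edge).
-/

set_option autoImplicit false

namespace Pool.Agent.Q293.CP

open Finset SimpleGraph

variable {V : Type*} [Fintype V]

/-- `f` is a legal turn of the cops in the configuration `C`: for all `u`, `v` the number of
pebbling steps from `u` to `v` made in this turn is `f u v`. Steps go along edges, every step from
`u` uses two of the `C u` cops standing on `u` (so a cop takes part in at most one step of the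
turn), and there is at least one step. -/
structure IsTurn (G : SimpleGraph V) (C : V → ℕ) (f : V → V → ℕ) : Prop where
  adj : ∀ u v, f u v ≠ 0 → G.Adj u v
  enough : ∀ u, 2 * ∑ v, f u v ≤ C u
  pos : ∃ u v, f u v ≠ 0

/-- the configuration after the turn `f`: two cops leave `v` for every step from `v`, one cop
arrives at `v` for every step to `v` -/
def after (C : V → ℕ) (f : V → V → ℕ) (v : V) : ℕ := C v - 2 * ∑ w, f v w + ∑ u, f u v

/-- The cops, whose turn it is, can force the capture of the robber: configuration `C`, robber at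
the vertex `r`. -/
inductive CopsWin (G : SimpleGraph V) : (V → ℕ) → V → Prop
  /-- a cop occupies the vertex of the robber -/
  | here {C : V → ℕ} {r : V} (h : C r ≠ 0) : CopsWin G C r
  /-- the cops make a turn after which a cop occupies the vertex of the robber -/
  | capture {C : V → ℕ} {r : V} (f : V → V → ℕ) (hf : IsTurn G C f) (h : after C f r ≠ 0) :
      CopsWin G C r
  /-- the cops make a turn such that they win after every answer of the robber, who stays or moves
  to an adjacent vertex -/
  | turn {C : V → ℕ} {r : V} (f : V → V → ℕ) (hf : IsTurn G C f)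
      (h : ∀ r', (r' = r ∨ G.Adj r r') → CopsWin G (after C f) r') : CopsWin G C r

/-- the cop pebbling number: the least number of cops for which some configuration wins against
every starting vertex of the robber -/
noncomputable def copNumber (G : SimpleGraph V) : ℕ :=
  sInf {m | ∃ C : V → ℕ, ∑ v, C v = m ∧ ∀ r, CopsWin G C r}

/-- `n` steps from `u` to `v` -/
def mv [DecidableEq V] (u v : V) (n : ℕ) : V → V → ℕ := fun a b => if a = u ∧ b = v then n else 0

lemma mv_turn [DecidableEq V] {G : SimpleGraph V} {u v : V} (h : G.Adj u v) {n k : ℕ} (hn : n ≠ 0)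
    (hk : 2 * n ≤ k) : IsTurn G (Pi.single u k) (mv u v n) where
  adj a b hab := by
    unfold mv at hab
    split_ifs at hab with hh
    · rw [hh.1, hh.2]; exact h
    · exact absurd rfl hab
  enough a := by
    unfold mv
    by_cases ha : a = u
    · subst ha
      simp only [true_and, Finset.sum_ite_eq', Finset.mem_univ, if_true, Pi.single_eq_same]
      exact hk
    · simp [ha]
  pos := ⟨u, v, by simp [mv, hn]⟩

lemma mv_after_target [DecidableEq V] {u v : V} {n k : ℕ} (hn : n ≠ 0) :
    after (Pi.single u k) (mv u v n) v ≠ 0 := by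
  unfold after mv
  have : ∑ x : V, (if x = u ∧ v = v then n else 0) = n := by simp
  rw [this]
  omega

lemma mv_after [DecidableEq V] {u v : V} (h : u ≠ v) {n : ℕ} :
    after (Pi.single u (2 * n)) (mv u v n) = Pi.single v n := by
  funext x
  unfold after mv
  by_cases hx : x = u
  · subst hx
    have h1 : ∑ w : V, (if x = x ∧ w = v then n else 0) = n := by simp
    have h2 : ∑ w : V, (if w = x ∧ x = v then n else 0) = 0 := by simp [h]
    rw [h1, h2, Pi.single_eq_same, Pi.single_eq_of_ne h]
    omega
  · have h1 : ∑ w : V, (if x = u ∧ w = v then n else 0) = 0 := by simp [hx]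
    rw [h1, Pi.single_eq_of_ne hx]
    by_cases hv : x = v
    · subst hv
      have h2 : ∑ w : V, (if w = u ∧ x = x then n else 0) = n := by simp
      rw [h2, Pi.single_eq_same]
      omega
    · have h2 : ∑ w : V, (if w = u ∧ x = v then n else 0) = 0 := by simp [hv]
      rw [h2, Pi.single_eq_of_ne hv]
      rfl

/-- total number of cops after a turn -/
lemma sum_after {G : SimpleGraph V} {C : V → ℕ} {f : V → V → ℕ} (hf : IsTurn G C f) :
    ∑ v, after C f v < ∑ v, C v := by
  unfold after
  rw [Finset.sum_add_distrib, Finset.sum_comm (f := fun v u => f u v)]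
  have h1 : ∑ v, (C v - 2 * ∑ w, f v w) + ∑ v, 2 * ∑ w, f v w = ∑ v, C v := by
    rw [← Finset.sum_add_distrib]
    refine Finset.sum_congr rfl fun v _ => ?_
    have := hf.enough v
    omega
  rw [← Finset.mul_sum] at h1
  have h2 : 0 < ∑ v, ∑ w, f v w := by
    obtain ⟨u, v, h⟩ := hf.pos
    refine Finset.sum_pos' (fun _ _ => Nat.zero_le _) ⟨u, Finset.mem_univ _, ?_⟩
    exact Finset.sum_pos' (fun _ _ => Nat.zero_le _) ⟨v, Finset.mem_univ _, Nat.pos_of_ne_zero h⟩
  omega

/-- a weighted sum does not increase in a turn if two cops weigh at least as much as the cop which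
replaces them -/
lemma weight_after {G : SimpleGraph V} {C : V → ℕ} {f : V → V → ℕ} (hf : IsTurn G C f)
    (φ ψ : V → ℝ) (h1 : ∀ v, C v ≠ 0 → φ v ≤ ψ v)
    (h2 : ∀ u v, C u ≠ 0 → G.Adj u v → φ v ≤ 2 * ψ u) :
    ∑ v, (after C f v : ℝ) * φ v ≤ ∑ v, (C v : ℝ) * ψ v := by
  have e : ∀ v, (after C f v : ℝ) = ((C v : ℝ) - 2 * ∑ w, (f v w : ℝ)) + ∑ u, (f u v : ℝ) := by
    intro v
    unfold after
    rw [Nat.cast_add, Nat.cast_sub (hf.enough v)]
    push_cast
    ring
  calc ∑ v, (after C f v : ℝ) * φ v
      = ∑ v, ((C v : ℝ) - 2 * ∑ w, (f v w : ℝ)) * φ v + ∑ v, ∑ u, (f u v : ℝ) * φ v := by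
        rw [← Finset.sum_add_distrib]
        refine Finset.sum_congr rfl fun v _ => ?_
        rw [e v, add_mul, Finset.sum_mul]
    _ ≤ ∑ v, ((C v : ℝ) - 2 * ∑ w, (f v w : ℝ)) * ψ v + ∑ v, ∑ u, (f u v : ℝ) * (2 * ψ u) := by
        refine add_le_add (Finset.sum_le_sum fun v _ => ?_)
          (Finset.sum_le_sum fun v _ => Finset.sum_le_sum fun u _ => ?_)
        · have h0 : (0 : ℝ) ≤ (C v : ℝ) - 2 * ∑ w, (f v w : ℝ) := by
            have := hf.enough v
            have h3 : ((2 * ∑ w, f v w : ℕ) : ℝ) ≤ (C v : ℝ) := by exact_mod_cast this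
            push_cast at h3
            linarith
          by_cases hc : C v = 0
          · have h4 : ∑ w, f v w = 0 := by have := hf.enough v; omega
            have h5 : ∑ w, (f v w : ℝ) = 0 := by exact_mod_cast h4
            rw [hc, h5]; simp
          · exact mul_le_mul_of_nonneg_left (h1 v hc) h0
        · by_cases hz : f u v = 0
          · rw [hz]; simp
          · have hc : C u ≠ 0 := by
              have h3 := hf.enough u
              have h4 : f u v ≤ ∑ w, f u w :=
                Finset.single_le_sum (f := fun w => f u w) (fun _ _ => Nat.zero_le _)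
                  (Finset.mem_univ v)
              omega
            exact mul_le_mul_of_nonneg_left (h2 u v hc (hf.adj u v hz)) (Nat.cast_nonneg _)
    _ = ∑ v, (C v : ℝ) * ψ v := by
        rw [Finset.sum_comm (f := fun v u => (f u v : ℝ) * (2 * ψ u)), ← Finset.sum_add_distrib]
        refine Finset.sum_congr rfl fun v _ => ?_
        rw [← Finset.sum_mul]
        ring

end Pool.Agent.Q293.CP
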