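import Mathlib

/-!
# A superharmonic function on the quadrant

`g i j = m ^ (-1/8) * exp (-k ^ 2 / (8 m))` with `m = i + j + 1`, `k = i - j`.
-/

set_option autoImplicit false

namespace Pool.Agent.Q293.CP

open Real

/-- the exponent of `g` -/
noncomputable def q (i j : ℕ) : ℝ :=
  Real.log ((i : ℝ) + j + 1) / 8 + ((i : ℝ) - j) ^ 2 / (8 * ((i : ℝ) + j + 1))

/-- the function `g` -/
noncomputable def g (i j : ℕ) : ℝ := Real.exp (-q i j)

lemma g_pos (i j : ℕ) : 0 < g i j := Real.exp_pos _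

lemma g_comm (i j : ℕ) : g i j = g j i := by
  unfold g q
  have h1 : (i : ℝ) + j + 1 = (j : ℝ) + i + 1 := by ring
  have h2 : ((i : ℝ) - j) ^ 2 = ((j : ℝ) - i) ^ 2 := by ring
  rw [h1, h2]

lemma g_zero : g 0 0 = 1 := by
  unfold g q
  simp

/-- neighbours differ by a factor at most two -/
lemma g_succ_le (i j : ℕ) : g (i + 1) j ≤ 2 * g i j := by
  have h2 : (2 : ℝ) = Real.exp (Real.log 2) := (Real.exp_log (by norm_num)).symm
  unfold g
  rw [h2, ← Real.exp_add]
  refine Real.exp_le_exp.2 ?_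
  unfold q
  have hi : (0 : ℝ) ≤ i := Nat.cast_nonneg i
  have hj : (0 : ℝ) ≤ j := Nat.cast_nonneg j
  push_cast
  have hlog : Real.log ((i : ℝ) + j + 1) ≤ Real.log ((i : ℝ) + 1 + j + 1) :=
    Real.log_le_log (by positivity) (by linarith)
  have hl2 : (0.5 : ℝ) ≤ Real.log 2 := by have := Real.log_two_gt_d9; linarith
  have key : ((i : ℝ) - j) ^ 2 / (8 * ((i : ℝ) + j + 1)) -
      ((i : ℝ) + 1 - j) ^ 2 / (8 * ((i : ℝ) + 1 + j + 1)) ≤ 3 / 8 := by
    rw [div_sub_div _ _ (by positivity) (by positivity), div_le_div_iff₀ (by positivity) (by norm_num)]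
    nlinarith [mul_nonneg hi hj, mul_nonneg hi hi, mul_nonneg hj hj]
  linarith

lemma g_le_two (i j : ℕ) : g i (j + 1) ≤ 2 * g i j := by
  rw [g_comm i (j + 1), g_comm i j]
  exact g_succ_le j i

/-- on the axis -/
lemma g_axis (j : ℕ) : g 0 j ≤ 3 / 2 * g 0 (j + 1) := by
  have h2 : (3 / 2 : ℝ) = Real.exp (Real.log (3 / 2)) := (Real.exp_log (by norm_num)).symm
  unfold g
  rw [h2, ← Real.exp_add]
  refine Real.exp_le_exp.2 ?_
  unfold q
  have hj : (0 : ℝ) ≤ j := Nat.cast_nonneg j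
  push_cast
  have hl : (1 / 3 : ℝ) ≤ Real.log (3 / 2) := by
    have := Real.one_sub_inv_le_log_of_pos (show (0 : ℝ) < 3 / 2 by norm_num)
    norm_num at this ⊢
    linarith
  have hlog : Real.log ((0 : ℝ) + (j + 1) + 1) ≤ Real.log ((0 : ℝ) + j + 1) + 1 := by
    have h1 : ((0 : ℝ) + (j + 1) + 1) ≤ ((0 : ℝ) + j + 1) * 2 := by linarith
    have h3 : Real.log ((0 : ℝ) + (j + 1) + 1) ≤ Real.log (((0 : ℝ) + j + 1) * 2) :=
      Real.log_le_log (by positivity) h1
    rw [Real.log_mul (by positivity) (by norm_num)] at h3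
    have := Real.log_two_lt_d9
    linarith
  have key : ((0 : ℝ) - (j + 1)) ^ 2 / (8 * ((0 : ℝ) + (j + 1) + 1)) -
      ((0 : ℝ) - j) ^ 2 / (8 * ((0 : ℝ) + j + 1)) ≤ 1 / 8 := by
    rw [div_sub_div _ _ (by positivity) (by positivity), div_le_div_iff₀ (by positivity) (by norm_num)]
    nlinarith [hj]
  linarith

lemma g_axis' (i : ℕ) : g i 0 ≤ 3 / 2 * g (i + 1) 0 := by
  rw [g_comm i 0, g_comm (i + 1) 0]
  exact g_axis i

/-- superharmonic in the interior -/
lemma g_super (i j : ℕ) : g i (j + 1) + g (i + 1) j ≤ 2 * g (i + 1) (j + 1) := by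
  set m : ℝ := (i : ℝ) + j + 2 with hm
  set k : ℝ := (i : ℝ) - j with hk
  have hi : (0 : ℝ) ≤ i := Nat.cast_nonneg i
  have hj : (0 : ℝ) ≤ j := Nat.cast_nonneg j
  have hm2 : 2 ≤ m := by rw [hm]; linarith
  have hm0 : 0 < m := by linarith
  have e1 : q i (j + 1) = Real.log m / 8 + (k ^ 2 + 1) / (8 * m) - k / (4 * m) := by
    unfold q
    push_cast
    rw [show (i : ℝ) + (j + 1) + 1 = m by rw [hm]; ring,
      show (i : ℝ) - (j + 1) = k - 1 by rw [hk]; ring]
    field_simp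
    ring
  have e2 : q (i + 1) j = Real.log m / 8 + (k ^ 2 + 1) / (8 * m) + k / (4 * m) := by
    unfold q
    push_cast
    rw [show (i : ℝ) + 1 + j + 1 = m by rw [hm]; ring,
      show (i : ℝ) + 1 - j = k + 1 by rw [hk]; ring]
    field_simp
    ring
  have e3 : q (i + 1) (j + 1) = Real.log (m + 1) / 8 + k ^ 2 / (8 * (m + 1)) := by
    unfold q
    push_cast
    rw [show (i : ℝ) + 1 + (j + 1) + 1 = m + 1 by rw [hm]; ring,
      show (i : ℝ) + 1 - (j + 1) = k by rw [hk]; ring]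
  have h1 : g i (j + 1) + g (i + 1) j =
      2 * (Real.exp (-(Real.log m / 8 + (k ^ 2 + 1) / (8 * m))) * Real.cosh (k / (4 * m))) := by
    unfold g
    rw [e1, e2, Real.cosh_eq]
    rw [show -(Real.log m / 8 + (k ^ 2 + 1) / (8 * m) - k / (4 * m)) =
      -(Real.log m / 8 + (k ^ 2 + 1) / (8 * m)) + k / (4 * m) by ring,
      show -(Real.log m / 8 + (k ^ 2 + 1) / (8 * m) + k / (4 * m)) =
      -(Real.log m / 8 + (k ^ 2 + 1) / (8 * m)) + -(k / (4 * m)) by ring,
      Real.exp_add, Real.exp_add]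
    ring
  have h2 : Real.exp (-(Real.log m / 8 + (k ^ 2 + 1) / (8 * m))) * Real.cosh (k / (4 * m)) ≤
      g (i + 1) (j + 1) := by
    refine (mul_le_mul_of_nonneg_left (Real.cosh_le_exp_half_sq _) (Real.exp_pos _).le).trans ?_
    unfold g
    rw [e3, ← Real.exp_add]
    refine Real.exp_le_exp.2 ?_
    have hlog : Real.log (m + 1) ≤ Real.log m + 1 / m := by
      have h3 : m + 1 = m * (1 + 1 / m) := by field_simp
      have h4 : (0 : ℝ) < 1 + 1 / m := by positivity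
      rw [h3, Real.log_mul hm0.ne' h4.ne']
      have := Real.log_le_sub_one_of_pos h4
      linarith
    have key : k ^ 2 / (8 * (m + 1)) + 1 / m / 8 + (k / (4 * m)) ^ 2 / 2 ≤ (k ^ 2 + 1) / (8 * m) := by
      have h5 : (k ^ 2 + 1) / (8 * m) - (k ^ 2 / (8 * (m + 1)) + 1 / m / 8 + (k / (4 * m)) ^ 2 / 2) =
          k ^ 2 * (3 * m - 1) / (32 * m ^ 2 * (m + 1)) := by
        field_simp
        ring
      have h6 : 0 ≤ k ^ 2 * (3 * m - 1) / (32 * m ^ 2 * (m + 1)) := by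
        have : 0 ≤ 3 * m - 1 := by linarith
        positivity
      linarith
    linarith
  rw [h1]
  linarith

/-- the bound far from the corner -/
lemma g_le (i j s : ℕ) (h : s ≤ i + j + 1) (hs : 1 ≤ s) : g i j ≤ Real.exp (-(Real.log s / 8)) := by
  unfold g
  refine Real.exp_le_exp.2 ?_
  unfold q
  have h1 : Real.log (s : ℝ) ≤ Real.log ((i : ℝ) + j + 1) :=
    Real.log_le_log (by exact_mod_cast hs) (by exact_mod_cast h)
  have h2 : 0 ≤ ((i : ℝ) - j) ^ 2 / (8 * ((i : ℝ) + j + 1)) := by positivity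
  linarith

end Pool.Agent.Q293.CP
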