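import Pool.Agent.Q293.CP.Game

/-!
# The graphs of the counterexample

`T B D s`: an apex over the strong product of the tree of words (words of length at most `D` over
`B` letters) with a path of `s` vertices (the phases `0, ..., s - 1`; the apex is adjacent to all
vertices of phase `s - 1`).
-/

set_option autoImplicit false

namespace Pool.Agent.Q293.CP

open Finset SimpleGraph

/-- words of length at most `D` over `B` letters -/
abbrev Word (B D : ℕ) := {l : List (Fin B) // l.length ≤ D}

instance (B D : ℕ) : Finite (Word B D) := (List.finite_length_le (Fin B) D).to_subtype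

noncomputable instance (B D : ℕ) : Fintype (Word B D) := Fintype.ofFinite _

/-- vertices: the apex `none`, and the pairs of a word and a phase -/
abbrev Vtx (B D s : ℕ) := Option (Word B D × Fin s)

/-- equal words, or one is a child of the other -/
def Near {B : ℕ} (w w' : List (Fin B)) : Prop := w = w' ∨ (∃ c, w' = c :: w) ∨ ∃ c, w = c :: w'

lemma Near.symm {B : ℕ} {w w' : List (Fin B)} (h : Near w w') : Near w' w := by
  rcases h with h | h | h
  · exact Or.inl h.symm
  · exact Or.inr (Or.inr h)
  · exact Or.inr (Or.inl h)

/-- adjacency before symmetrisation of the two cases with the apex -/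
def Adj' {B D s : ℕ} : Vtx B D s → Vtx B D s → Prop
  | none, none => False
  | none, some (_, i) => (i : ℕ) + 1 = s
  | some (_, i), none => (i : ℕ) + 1 = s
  | some (w, i), some (w', i') => (w, i) ≠ (w', i') ∧ Near w.1 w'.1 ∧
      (i : ℕ) ≤ i' + 1 ∧ (i' : ℕ) ≤ i + 1

/-- the graph -/
def T (B D s : ℕ) : SimpleGraph (Vtx B D s) where
  Adj := Adj'
  symm := ⟨fun x y h => by
    rcases x with _ | ⟨w, i⟩ <;> rcases y with _ | ⟨w', i'⟩
    · exact h
    · exact h
    · exact h
    · exact ⟨Ne.symm h.1, h.2.1.symm, h.2.2.2, h.2.2.1⟩⟩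
  loopless := ⟨fun x h => by
    rcases x with _ | ⟨w, i⟩
    · exact h
    · exact h.1 rfl⟩

variable {B D s : ℕ}

lemma connected (_hs : 1 ≤ s) : (T B D s).Connected := by
  have key : ∀ (n : ℕ) (w : Word B D) (i : Fin s), (i : ℕ) + 1 + n = s →
      (T B D s).Reachable (some (w, i)) none := by
    intro n
    induction n with
    | zero =>
      intro w i h
      have hadj : (T B D s).Adj (some (w, i)) none := by
        show (i : ℕ) + 1 = s
        omega
      exact hadj.reachable
    | succ n ih =>
      intro w i h
      have hi : (i : ℕ) + 1 < s := by omega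
      refine (SimpleGraph.Adj.reachable (v := some (w, ⟨(i : ℕ) + 1, hi⟩)) ?_).trans
        (ih w ⟨(i : ℕ) + 1, hi⟩ (by simp only; omega))
      refine ⟨?_, Or.inl rfl, by simp only; omega, by simp only; omega⟩
      intro h2
      have := congrArg (fun z => ((z : Word B D × Fin s).2 : ℕ)) h2
      simp only at this
      omega
  have key2 : ∀ x : Vtx B D s, (T B D s).Reachable x none := by
    intro x
    rcases x with _ | ⟨w, i⟩
    · exact SimpleGraph.Reachable.refl _
    · exact key (s - 1 - i) w i (by have := i.2; omega)
  have : Nonempty (Vtx B D s) := ⟨none⟩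
  exact SimpleGraph.Connected.mk fun x y => (key2 x).trans (key2 y).symm

open Classical in
/-- `2 ^ i` cops at phase `i ≥ 1` catch a robber who is near and not above them -/
lemma win_phase : ∀ (i : ℕ) (hi : i < s) (w w' : Word B D) (i' : Fin s), 1 ≤ i → (i' : ℕ) ≤ i →
    Near w.1 w'.1 → CopsWin (T B D s) (Pi.single (some (w, (⟨i, hi⟩ : Fin s))) (2 ^ i))
      (some (w', i')) := by
  intro i
  induction i with
  | zero => intro _ _ _ _ h; omega
  | succ i ih =>
    intro hi w w' i' _ hi' hn
    by_cases heq : (i' : ℕ) = i + 1
    · by_cases hw : w = w'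
      · have h1 : (⟨i + 1, hi⟩ : Fin s) = i' := Fin.ext heq.symm
        subst hw
        rw [h1]
        refine CopsWin.here ?_
        rw [Pi.single_eq_same]
        positivity
      · refine CopsWin.capture (mv _ (some (w', i')) 1) (mv_turn ?_ one_ne_zero ?_)
          (mv_after_target one_ne_zero)
        · refine ⟨?_, hn, by simp only; omega, by simp only; omega⟩
          intro h2
          exact hw (congrArg Prod.fst h2)
        · rw [pow_succ]
          have := Nat.one_le_two_pow (n := i)
          omega
    · -- all cops go to `(w', i)`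
      have hi2 : i < s := by omega
      have hadj : (T B D s).Adj (some (w, (⟨i + 1, hi⟩ : Fin s))) (some (w', (⟨i, hi2⟩ : Fin s))) := by
        refine ⟨?_, hn, by simp only; omega, by simp only; omega⟩
        intro h2
        have := congrArg (fun z => ((z : Word B D × Fin s).2 : ℕ)) h2
        simp only at this
        omega
      have hpow : 2 ^ (i + 1) = 2 * 2 ^ i := by rw [pow_succ]; ring
      by_cases h3 : (i' : ℕ) = i
      · have h1 : (⟨i, hi2⟩ : Fin s) = i' := Fin.ext h3.symm
        rw [h1] at hadj
        exact CopsWin.capture (mv _ (some (w', i')) (2 ^ i)) (mv_turn hadj (by positivity) hpow.ge)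
          (mv_after_target (by positivity))
      · refine CopsWin.turn (mv _ (some (w', (⟨i, hi2⟩ : Fin s))) (2 ^ i))
          (mv_turn hadj (by positivity) hpow.ge) ?_
        intro r' hr'
        rw [hpow, mv_after hadj.ne]
        rcases hr' with rfl | hr'
        · exact ih hi2 w' w' i' (by omega) (by omega) (Or.inl rfl)
        · rcases r' with _ | ⟨w'', i''⟩
          · have h4 : (i' : ℕ) + 1 = s := hr'
            omega
          · have h4 : (i'' : ℕ) ≤ i' + 1 := hr'.2.2.2
            exact ih hi2 w' w'' i'' (by omega) (by omega) hr'.2.1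

open Classical in
/-- `2 ^ s` cops at the apex win -/
lemma win_apex (hs : 1 ≤ s) (r : Vtx B D s) :
    CopsWin (T B D s) (Pi.single none (2 ^ s)) r := by
  rcases r with _ | ⟨w', i'⟩
  · refine CopsWin.here ?_
    rw [Pi.single_eq_same]
    positivity
  · have hlt : s - 1 < s := by omega
    have hadj : (T B D s).Adj none (some (w', (⟨s - 1, hlt⟩ : Fin s))) := by
      show s - 1 + 1 = s
      omega
    have hpow : 2 ^ s = 2 * 2 ^ (s - 1) := by
      rw [← pow_succ']
      congr 1
      omega
    by_cases h3 : (i' : ℕ) = s - 1
    · have h1 : (⟨s - 1, hlt⟩ : Fin s) = i' := Fin.ext h3.symm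
      rw [h1] at hadj
      exact CopsWin.capture (mv _ (some (w', i')) (2 ^ (s - 1)))
        (mv_turn hadj (by positivity) hpow.ge) (mv_after_target (by positivity))
    · refine CopsWin.turn (mv _ (some (w', (⟨s - 1, hlt⟩ : Fin s))) (2 ^ (s - 1)))
          (mv_turn hadj (by positivity) hpow.ge) ?_
      intro r' hr'
      rw [hpow, mv_after hadj.ne]
      have hi' := i'.2
      rcases hr' with rfl | hr'
      · exact win_phase (s - 1) hlt w' w' i' (by omega) (by omega) (Or.inl rfl)
      · rcases r' with _ | ⟨w'', i''⟩
        · have h4 : (i' : ℕ) + 1 = s := hr'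
          omega
        · have h4 : (i'' : ℕ) ≤ i' + 1 := hr'.2.2.2
          exact win_phase (s - 1) hlt w' w'' i'' (by omega) (by omega) hr'.2.1

/-- `2 ^ s` cops are enough on `T B D s` -/
lemma copNumber_le (hs : 1 ≤ s) : copNumber (T B D s) ≤ 2 ^ s := by
  classical
  refine Nat.sInf_le ⟨Pi.single none (2 ^ s), ?_, win_apex hs⟩
  rw [Finset.sum_pi_single']
  simp

/-- the number of letters at the front of `r` that `w` does not share: `0` if `r` is a suffix of
`w`, that is if `w` is `r` or a descendant of `r` -/
def lag {B : ℕ} (w : List (Fin B)) : List (Fin B) → ℕ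
  | [] => 0
  | (x :: r) => if (x :: r) <:+ w then 0 else lag w r + 1

lemma lag_eq_zero {B : ℕ} {w r : List (Fin B)} : lag w r = 0 ↔ r <:+ w := by
  cases r with
  | nil => simp [lag]
  | cons x r =>
    unfold lag
    split_ifs with h
    · simp [h]
    · simp [h]

lemma lag_cons {B : ℕ} {w r : List (Fin B)} {c : Fin B} (h : ¬ (c :: r) <:+ w) :
    lag w (c :: r) = lag w r + 1 := by
  conv_lhs => unfold lag
  rw [if_neg h]

lemma lag_self {B : ℕ} (w : List (Fin B)) : lag w w = 0 := lag_eq_zero.2 (List.suffix_refl w)

lemma lag_child_le {B : ℕ} (w : List (Fin B)) (y : Fin B) : ∀ r : List (Fin B),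
    lag (y :: w) r ≤ lag w r
  | [] => by simp [lag]
  | (x :: r) => by
    unfold lag
    have ih := lag_child_le w y r
    split_ifs with h1 h2 h2
    · exact le_refl _
    · exact Nat.zero_le _
    · exact absurd (h2.trans (List.suffix_cons y w)) h1
    · omega

lemma lag_le_child {B : ℕ} (w : List (Fin B)) (y : Fin B) : ∀ r : List (Fin B),
    lag w r ≤ lag (y :: w) r + 1
  | [] => by simp [lag]
  | (x :: r) => by
    unfold lag
    have ih := lag_le_child w y r
    split_ifs with h1 h2 h2
    · exact Nat.zero_le _
    · exact Nat.zero_le _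
    · rcases List.suffix_cons_iff.1 h2 with h3 | h3
      · have h4 : r = w := (List.cons.inj h3).2
        rw [h4, lag_self]
      · exact absurd h3 h1
    · omega

lemma lag_near {B : ℕ} {w w' : List (Fin B)} (h : Near w w') (r : List (Fin B)) :
    lag w r ≤ lag w' r + 1 := by
  rcases h with rfl | ⟨c, rfl⟩ | ⟨c, rfl⟩
  · omega
  · exact lag_le_child w c r
  · have := lag_child_le w' c r
    omega

end Pool.Agent.Q293.CP
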