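import Pool.Agent.Q293.CP.Pot

/-!
# The lower bound for the product
-/

set_option autoImplicit false

namespace Pool.Agent.Q293.CP

open Finset SimpleGraph

variable {B D s : ℕ}

/-- the state of affairs when it is the turn of the cops -/
structure Inv (κ : ℝ) (C : Vtx B D s × Vtx B D s → ℕ) (r r' : List (Fin B)) : Prop where
  pot : ∑ p, (C p : ℝ) * psi κ p.1 p.2 r r' < 1
  fr : ∀ p, C p ≠ 0 → fresh p.1 p.2 r r'
  few : ∑ p, C p < B
  room : r.length + ∑ p, C p ≤ D
  room' : r'.length + ∑ p, C p ≤ D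

/-- a fresh letter -/
lemma exists_letter {P : Type*} [Fintype P] (C : P → ℕ) (π : P → Vtx B D s) (r : List (Fin B))
    (h : ∑ p, C p < B) :
    ∃ c : Fin B, ∀ p, C p ≠ 0 → ∀ w i, π p = some (w, i) → ¬ (c :: r) <:+ w.1 := by
  classical
  by_contra hcon
  push Not at hcon
  choose F hF w i hw hs using hcon
  have hinj : Function.Injective F := by
    intro c c' hcc
    have h1 : (some (w c, i c) : Vtx B D s) = some (w c', i c') := by
      rw [← hw c, ← hw c', hcc]
    have h2 : w c = w c' := congrArg Prod.fst (Option.some.inj h1)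
    have h3 := hs c
    have h4 := hs c'
    rw [← h2] at h4
    have h5 := List.suffix_of_suffix_length_le h3 h4 (by simp)
    have h6 := h5.eq_of_length (by simp)
    exact (List.cons.inj h6).1
  have h1 : (Finset.univ : Finset (Fin B)).card ≤ (Finset.univ.filter fun p => C p ≠ 0).card :=
    Finset.card_le_card_of_injOn F (fun c _ => by simp [hF c]) hinj.injOn
  have h2 : (Finset.univ.filter fun p => C p ≠ 0).card ≤ ∑ p, C p := by
    rw [Finset.card_eq_sum_ones]
    refine (Finset.sum_le_sum fun p hp => ?_).trans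
      (Finset.sum_le_sum_of_subset (Finset.filter_subset _ _))
    exact Nat.one_le_iff_ne_zero.2 (Finset.mem_filter.1 hp).2
  rw [Finset.card_univ, Fintype.card_fin] at h1
  omega

/-- the vertex of the robber -/
def vert (hs : 1 ≤ s) (r : List (Fin B)) (hr : r.length ≤ D) : Vtx B D s :=
  some (⟨r, hr⟩, ⟨0, hs⟩)

lemma vert_adj (hs : 1 ≤ s) (r : List (Fin B)) (c : Fin B) (hr : r.length ≤ D)
    (hr' : (c :: r).length ≤ D) : (T B D s).Adj (vert hs r hr) (vert hs (c :: r) hr') := by
  refine ⟨?_, Or.inr (Or.inl ⟨c, rfl⟩), Nat.le_succ _, Nat.le_succ _⟩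
  intro h
  have h1 := congrArg (fun z : Word B D × Fin s => z.1.1.length) h
  simp at h1

lemma fresh_left {x y : Vtx B D s} {r r' : List (Fin B)} {c : Fin B}
    (hc : ∀ w i, x = some (w, i) → ¬ (c :: r) <:+ w.1) : fresh x y (c :: r) r' := by
  rcases x with _ | ⟨w, i⟩ <;> rcases y with _ | ⟨w', j⟩ <;> simp only [fresh]
  intro h
  exact hc w i rfl (lag_eq_zero.1 h.1)

lemma robber_safe {κ : ℝ} (hκ : 0 ≤ κ) (hκ2 : ∀ j < s, g (s - 1) j ≤ 3 / 4 * κ) (hs : 1 ≤ s)
    {C : Vtx B D s × Vtx B D s → ℕ} {ρ : Vtx B D s × Vtx B D s}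
    (h : CopsWin (T B D s □ T B D s) C ρ) :
    ∀ (r r' : List (Fin B)) (hr : r.length ≤ D) (hr' : r'.length ≤ D),
      ρ = (vert hs r hr, vert hs r' hr') → Inv κ C r r' → False := by
  -- weights after a turn
  have hstep : ∀ (C : Vtx B D s × Vtx B D s → ℕ) (f) (r r' : List (Fin B)),
      IsTurn (T B D s □ T B D s) C f → Inv κ C r r' →
      ∑ p, (after C f p : ℝ) * phi κ p.1 p.2 r r' < 1 := by
    intro C f r r' hf hI
    refine lt_of_le_of_lt (weight_after hf (fun p => phi κ p.1 p.2 r r')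
      (fun p => psi κ p.1 p.2 r r') (fun p hp => phi_le_psi (hI.fr p hp)) ?_) hI.pot
    intro p p' hp hadj
    obtain ⟨x, y⟩ := p
    obtain ⟨x', y'⟩ := p'
    rw [SimpleGraph.boxProd_adj] at hadj
    rcases hadj with ⟨ha, hb⟩ | ⟨ha, hb⟩
    · simp only at ha hb
      subst hb
      exact step_left hκ hκ2 ha (hI.fr _ hp)
    · simp only at ha hb
      subst hb
      simp only
      rw [phi_swap, psi_swap]
      exact step_left hκ hκ2 ha (fresh_swap (hI.fr _ hp))
  have hphi : ∀ (p : Vtx B D s × Vtx B D s) (r r' : List (Fin B)), 0 ≤ phi κ p.1 p.2 r r' :=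
    fun p r r' => add_nonneg (by positivity) (N_nonneg _ _ _ _)
  induction h with
  | here h =>
    rintro r r' hr hr' rfl hI
    have := hI.fr _ h
    simp only [vert, fresh] at this
    exact this ⟨lag_self _, lag_self _⟩
  | @capture C ρ f hf h =>
    rintro r r' hr hr' rfl hI
    have h1 := hstep C f r r' hf hI
    have h2 : (after C f (vert hs r hr, vert hs r' hr') : ℝ) *
        phi κ (vert hs r hr) (vert hs r' hr') r r' ≤ ∑ p, (after C f p : ℝ) * phi κ p.1 p.2 r r' :=
      Finset.single_le_sum (f := fun p => (after C f p : ℝ) * phi κ p.1 p.2 r r')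
        (fun p _ => mul_nonneg (Nat.cast_nonneg _) (hphi p r r')) (Finset.mem_univ _)
    have h3 : (1 : ℝ) ≤ phi κ (vert hs r hr) (vert hs r' hr') r r' := by
      unfold phi
      have h4 : N (vert hs r hr : Vtx B D s) (vert hs r' hr') r r' = 1 := by
        simp [N, vert, lag_self, g_zero]
      rw [h4]
      have : 0 ≤ κ / 2 ^ ex (vert hs r hr : Vtx B D s) (vert hs r' hr') r r' := by positivity
      linarith
    have h5 : (1 : ℝ) ≤ (after C f (vert hs r hr, vert hs r' hr') : ℝ) := by
      exact_mod_cast Nat.one_le_iff_ne_zero.2 h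
    nlinarith
  | @turn C ρ f hf h ih =>
    rintro r r' hr hr' rfl hI
    have h1 := hstep C f r r' hf hI
    have hlt := sum_after hf
    have hfew := hI.few
    have hroom := hI.room
    have hroom' := hI.room'
    obtain ⟨c, hc⟩ := exists_letter (after C f) Prod.fst r (hlt.trans hfew)
    obtain ⟨c', hc'⟩ := exists_letter (after C f) Prod.snd r' (hlt.trans hfew)
    have hcoin : ∑ p, (after C f p : ℝ) * psi κ p.1 p.2 (c :: r) r' +
        ∑ p, (after C f p : ℝ) * psi κ p.1 p.2 r (c' :: r') ≤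
        2 * ∑ p, (after C f p : ℝ) * phi κ p.1 p.2 r r' := by
      rw [← Finset.sum_add_distrib, Finset.mul_sum]
      refine Finset.sum_le_sum fun p _ => ?_
      by_cases hp : after C f p = 0
      · rw [hp]; simp
      · have h2 := coin (r := r) (r' := r') hκ (hc p hp) (hc' p hp)
        have h3 : (0 : ℝ) ≤ (after C f p : ℝ) := Nat.cast_nonneg _
        nlinarith
    have hle1 : (c :: r).length ≤ D := by rw [List.length_cons]; omega
    have hle2 : (c' :: r').length ≤ D := by rw [List.length_cons]; omega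
    by_cases hlt1 : ∑ p, (after C f p : ℝ) * psi κ p.1 p.2 (c :: r) r' < 1
    · refine ih (vert hs (c :: r) hle1, vert hs r' hr') (Or.inr ?_) (c :: r) r' hle1 hr' rfl
        ⟨hlt1, fun p hp => fresh_left (hc p hp), by omega, ?_, by omega⟩
      · rw [SimpleGraph.boxProd_adj]
        exact Or.inl ⟨vert_adj hs r c hr hle1, rfl⟩
      · rw [List.length_cons]; omega
    · refine ih (vert hs r hr, vert hs (c' :: r') hle2) (Or.inr ?_) r (c' :: r') hr hle2 rfl
        ⟨by linarith, fun p hp => fresh_swap (fresh_left (hc' p hp)), by omega, by omega, ?_⟩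
      · rw [SimpleGraph.boxProd_adj]
        exact Or.inr ⟨vert_adj hs r' c' hr' hle2, rfl⟩
      · rw [List.length_cons]; omega

lemma lag_replicate {w : List (Fin B)} {c : Fin B} (h : ¬ [c] <:+ w) (n : ℕ) :
    lag w (List.replicate n c) = n := by
  induction n with
  | zero => rfl
  | succ n ih =>
    rw [List.replicate_succ, lag_cons, ih]
    intro h2
    apply h
    refine List.IsSuffix.trans ?_ h2
    rw [← List.replicate_succ, List.replicate_succ']
    exact List.suffix_append _ _

/-- Few cops do not win on the product. -/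
lemma not_win {κ : ℝ} (hκ : 0 ≤ κ) (hκ2 : ∀ j < s, g (s - 1) j ≤ 3 / 4 * κ) (hs : 1 ≤ s)
    (C : Vtx B D s × Vtx B D s → ℕ) (h1 : ∑ p, C p < B) (h2 : 2 * s + ∑ p, C p ≤ D)
    (h3 : ((∑ p, C p : ℕ) : ℝ) * κ < 4 ^ s) : ∃ ρ, ¬ CopsWin (T B D s □ T B D s) C ρ := by
  obtain ⟨c, hc⟩ := exists_letter C Prod.fst [] h1
  obtain ⟨c', hc'⟩ := exists_letter C Prod.snd [] h1
  set r := List.replicate (2 * s) c with hr
  set r' := List.replicate (2 * s) c' with hr'
  have hl : r.length = 2 * s := List.length_replicate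
  have hl' : r'.length = 2 * s := List.length_replicate
  have hD : r.length ≤ D := by omega
  have hD' : r'.length ≤ D := by omega
  refine ⟨(vert hs r hD, vert hs r' hD'), fun hwin => ?_⟩
  refine robber_safe hκ hκ2 hs hwin r r' hD hD' rfl ⟨?_, ?_, h1, by omega, by omega⟩
  · have hpsi : ∀ p, C p ≠ 0 → psi κ p.1 p.2 r r' ≤ κ / 4 ^ s := by
      rintro ⟨x, y⟩ hp
      have a1 := hc _ hp
      have a2 := hc' _ hp
      simp only at a1 a2 ⊢
      have hM : M x y r r' = 0 := by
        rcases x with _ | ⟨w, i⟩ <;> rcases y with _ | ⟨w', j⟩ <;> simp only [M]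
        rw [hr, hr', lag_replicate (a1 w i rfl), lag_replicate (a2 w' j rfl)]
        rw [if_neg (by omega), if_neg (by omega)]
      have hx : lev x + dst x r ≥ s ∧ dst x r ≥ s := by
        rcases x with _ | ⟨w, i⟩
        · simp [lev, dst]
        · simp only [lev, dst]
          rw [hr, lag_replicate (a1 w i rfl)]
          have := i.2
          omega
      have hy : lev y + dst y r' ≥ s ∧ dst y r' ≥ s := by
        rcases y with _ | ⟨w, i⟩
        · simp [lev, dst]
        · simp only [lev, dst]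
          rw [hr', lag_replicate (a2 w i rfl)]
          have := i.2
          omega
      have hex : 2 * s ≤ ex x y r r' := by unfold ex; omega
      unfold psi
      rw [hM, add_zero]
      refine div_le_div_of_nonneg_left hκ (by positivity) ?_
      calc (4 : ℝ) ^ s = 2 ^ (2 * s) := by rw [pow_mul]; norm_num
        _ ≤ 2 ^ ex x y r r' := pow_le_pow_right₀ (by norm_num) hex
    calc ∑ p, (C p : ℝ) * psi κ p.1 p.2 r r' ≤ ∑ p, (C p : ℝ) * (κ / 4 ^ s) := by
          refine Finset.sum_le_sum fun p _ => ?_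
          by_cases hp : C p = 0
          · rw [hp]; simp
          · exact mul_le_mul_of_nonneg_left (hpsi p hp) (Nat.cast_nonneg _)
      _ = ((∑ p, C p : ℕ) : ℝ) * κ / 4 ^ s := by
          rw [← Finset.sum_mul]
          push_cast
          ring
      _ < 1 := by
          rw [div_lt_one (by positivity)]
          exact h3
  · rintro ⟨x, y⟩ hp
    have a1 := hc _ hp
    simp only at a1 ⊢
    rcases x with _ | ⟨w, i⟩ <;> rcases y with _ | ⟨w', j⟩ <;> simp only [fresh]
    rw [hr, lag_replicate (a1 w i rfl)]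
    omega

/-- For every `A` there are `s ≥ 1` and a graph with cop pebbling number at most `2 ^ s` for which
more than `A 4 ^ s` cops are needed on the square. -/
theorem main (A : ℝ) : ∃ (V : Type) (_ : Fintype V) (G : SimpleGraph V) (s : ℕ), G.Connected ∧
    copNumber G ≤ 2 ^ s ∧ A * 4 ^ s < copNumber (G □ G) := by
  -- choice of the parameters
  set A' : ℝ := max A 1 with hA'
  have hA1 : 1 ≤ A' := le_max_right _ _
  obtain ⟨s, hs⟩ := exists_nat_ge (Real.exp (16 * A'))
  have hexp : 1 ≤ Real.exp (16 * A') := Real.one_le_exp (by linarith)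
  have hs1 : 1 ≤ s := by
    have : (1 : ℝ) ≤ s := hexp.trans hs
    exact_mod_cast this
  have hlog : 16 * A' ≤ Real.log s := by
    rw [← Real.log_exp (16 * A')]
    exact Real.log_le_log (Real.exp_pos _) hs
  set κ : ℝ := 4 / 3 * Real.exp (-(Real.log s / 8)) with hκ
  have hκ0 : 0 < κ := by rw [hκ]; positivity
  have hκ2 : ∀ j < s, g (s - 1) j ≤ 3 / 4 * κ := by
    intro j _
    have := g_le (s - 1) j s (by omega) hs1
    rw [hκ]
    linarith
  have hκA : A' * κ < 1 := by
    have h1 : 2 * A' ≤ Real.log s / 8 := by linarith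
    have h2 : 2 * A' + 1 ≤ Real.exp (Real.log s / 8) :=
      (by linarith : 2 * A' + 1 ≤ Real.log s / 8 + 1).trans (Real.add_one_le_exp _)
    rw [hκ, Real.exp_neg]
    have h3 : 0 < Real.exp (Real.log s / 8) := Real.exp_pos _
    rw [show A' * (4 / 3 * (Real.exp (Real.log s / 8))⁻¹) = (4 / 3 * A') / Real.exp (Real.log s / 8) by
      field_simp, div_lt_one h3]
    linarith
  set m := ⌈A' * 4 ^ s⌉₊ with hm
  refine ⟨Vtx (m + 1) (2 * s + m) s, inferInstance, T (m + 1) (2 * s + m) s, s, connected hs1,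
    copNumber_le hs1, ?_⟩
  by_contra hcon
  push Not at hcon
  have hne : {k | ∃ C : Vtx (m + 1) (2 * s + m) s × Vtx (m + 1) (2 * s + m) s → ℕ,
      ∑ v, C v = k ∧ ∀ r, CopsWin (T (m + 1) (2 * s + m) s □ T (m + 1) (2 * s + m) s) C r}.Nonempty :=
    ⟨_, fun _ => 1, rfl, fun r => CopsWin.here one_ne_zero⟩
  obtain ⟨C, hC, hwin⟩ := Nat.sInf_mem hne
  have hC2 : ∑ v, C v = copNumber (T (m + 1) (2 * s + m) s □ T (m + 1) (2 * s + m) s) := hC
  have h4 : (0 : ℝ) < 4 ^ s := by positivity
  have hle : ((∑ v, C v : ℕ) : ℝ) ≤ A' * 4 ^ s := by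
    rw [hC2]
    exact hcon.trans (mul_le_mul_of_nonneg_right (le_max_left _ _) h4.le)
  have hle2 : ∑ v, C v ≤ m := by
    have : ((∑ v, C v : ℕ) : ℝ) ≤ (m : ℝ) := hle.trans (Nat.le_ceil _)
    exact_mod_cast this
  obtain ⟨ρ, hρ⟩ := not_win hκ0.le hκ2 hs1 C (by omega) (by omega) (by
    calc ((∑ v, C v : ℕ) : ℝ) * κ ≤ A' * 4 ^ s * κ := mul_le_mul_of_nonneg_right hle hκ0.le
      _ = A' * κ * 4 ^ s := by ring
      _ < 1 * 4 ^ s := mul_lt_mul_of_pos_right hκA h4
      _ = 4 ^ s := one_mul _)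
  exact hρ (hwin ρ)

end Pool.Agent.Q293.CP
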