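import Pool.Agent.Q293.CP.Graph
import Pool.Agent.Q293.CP.Gauss

/-!
# The potential of a cop

The robber stands at phase `0` at the words `r`, `r'`. `phi` is the potential before the move of the
robber, `psi` the potential before the turn of the cops.
-/

set_option autoImplicit false

namespace Pool.Agent.Q293.CP

open Finset SimpleGraph

variable {B D s : ℕ}

/-- distance to the apex -/
def lev : Vtx B D s → ℕ
  | none => 0
  | some (_, i) => s - i

/-- distance to the robber (up to descendants) -/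
def dst : Vtx B D s → List (Fin B) → ℕ
  | none, _ => s
  | some (w, i), r => min (max (i : ℕ) (lag w.1 r)) (2 * s - i)

/-- number of steps needed on a way over one of the apices -/
def ex (x y : Vtx B D s) (r r' : List (Fin B)) : ℕ :=
  min (lev x + s + dst y r') (lev y + s + dst x r)

/-- value of a step forward -/
noncomputable def u : ℕ → ℕ → ℝ
  | 0, j => g 0 j / 2
  | i + 1, j => g i j

lemma u_pos (i j : ℕ) : 0 < u i j := by
  cases i with
  | zero => exact div_pos (g_pos _ _) (by norm_num)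
  | succ i => exact g_pos _ _

/-- potential of a cop on the track, before the move of the robber -/
noncomputable def N : Vtx B D s → Vtx B D s → List (Fin B) → List (Fin B) → ℝ
  | some (w, i), some (w', j), r, r' =>
    if lag w.1 r = 0 ∧ lag w'.1 r' = 0 then g i j / 2 ^ ((i : ℕ) + j) else 0
  | _, _, _, _ => 0

/-- potential of a cop on the track, before the turn of the cops -/
noncomputable def M : Vtx B D s → Vtx B D s → List (Fin B) → List (Fin B) → ℝ
  | some (w, i), some (w', j), r, r' =>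
    if lag w.1 r = 1 ∧ lag w'.1 r' = 0 then u i j / 2 ^ ((i : ℕ) + j)
    else if lag w.1 r = 0 ∧ lag w'.1 r' = 1 then u j i / 2 ^ ((i : ℕ) + j) else 0
  | _, _, _, _ => 0

/-- the cop is not at the track in both coordinates -/
def fresh : Vtx B D s → Vtx B D s → List (Fin B) → List (Fin B) → Prop
  | some (w, _), some (w', _), r, r' => ¬ (lag w.1 r = 0 ∧ lag w'.1 r' = 0)
  | _, _, _, _ => True

noncomputable def phi (κ : ℝ) (x y : Vtx B D s) (r r' : List (Fin B)) : ℝ :=
  κ / 2 ^ ex x y r r' + N x y r r'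

noncomputable def psi (κ : ℝ) (x y : Vtx B D s) (r r' : List (Fin B)) : ℝ :=
  κ / 2 ^ ex x y r r' + M x y r r'

lemma N_nonneg (x y : Vtx B D s) (r r' : List (Fin B)) : 0 ≤ N x y r r' := by
  rcases x with _ | ⟨w, i⟩ <;> rcases y with _ | ⟨w', j⟩ <;> simp only [N, le_refl]
  split_ifs
  · exact div_nonneg (g_pos _ _).le (by positivity)
  · exact le_refl _

lemma M_nonneg (x y : Vtx B D s) (r r' : List (Fin B)) : 0 ≤ M x y r r' := by
  rcases x with _ | ⟨w, i⟩ <;> rcases y with _ | ⟨w', j⟩ <;> simp only [M, le_refl]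
  split_ifs
  · exact div_nonneg (u_pos _ _).le (by positivity)
  · exact div_nonneg (u_pos _ _).le (by positivity)
  · exact le_refl _

lemma ex_swap (x y : Vtx B D s) (r r' : List (Fin B)) : ex x y r r' = ex y x r' r := by
  unfold ex
  exact min_comm _ _

lemma N_swap (x y : Vtx B D s) (r r' : List (Fin B)) : N x y r r' = N y x r' r := by
  rcases x with _ | ⟨w, i⟩ <;> rcases y with _ | ⟨w', j⟩ <;> simp only [N]
  rw [g_comm i j, Nat.add_comm (i : ℕ) j]
  split_ifs <;> first | rfl | omega

lemma M_swap (x y : Vtx B D s) (r r' : List (Fin B)) : M x y r r' = M y x r' r := by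
  rcases x with _ | ⟨w, i⟩ <;> rcases y with _ | ⟨w', j⟩ <;> simp only [M]
  rw [Nat.add_comm (i : ℕ) j]
  split_ifs <;> first | rfl | omega

lemma phi_swap (κ : ℝ) (x y : Vtx B D s) (r r' : List (Fin B)) :
    phi κ x y r r' = phi κ y x r' r := by
  unfold phi
  rw [ex_swap, N_swap]

lemma psi_swap (κ : ℝ) (x y : Vtx B D s) (r r' : List (Fin B)) :
    psi κ x y r r' = psi κ y x r' r := by
  unfold psi
  rw [ex_swap, M_swap]

lemma fresh_swap {x y : Vtx B D s} {r r' : List (Fin B)} (h : fresh x y r r') :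
    fresh y x r' r := by
  rcases x with _ | ⟨w, i⟩ <;> rcases y with _ | ⟨w', j⟩ <;> simp only [fresh] at h ⊢
  intro h2
  exact h ⟨h2.2, h2.1⟩

lemma phi_le_psi {κ : ℝ} {x y : Vtx B D s} {r r' : List (Fin B)} (h : fresh x y r r') :
    phi κ x y r r' ≤ psi κ x y r r' := by
  unfold phi psi
  have h1 : N x y r r' = 0 := by
    rcases x with _ | ⟨w, i⟩ <;> rcases y with _ | ⟨w', j⟩ <;> simp only [N]
    simp only [fresh] at h
    rw [if_neg h]
  rw [h1]
  linarith [M_nonneg x y r r']

lemma lev_adj {x x' : Vtx B D s} (h : (T B D s).Adj x x') : lev x ≤ lev x' + 1 := by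
  rcases x with _ | ⟨w, i⟩ <;> rcases x' with _ | ⟨w', i'⟩ <;> simp only [lev]
  · omega
  · omega
  · have h2 : (i : ℕ) + 1 = s := h
    omega
  · have h3 : (i' : ℕ) ≤ i + 1 := h.2.2.2
    omega

lemma dst_adj {x x' : Vtx B D s} (h : (T B D s).Adj x x') (r : List (Fin B)) :
    dst x r ≤ dst x' r + 1 := by
  rcases x with _ | ⟨w, i⟩ <;> rcases x' with _ | ⟨w', i'⟩ <;> simp only [dst]
  · omega
  · have h2 : (i' : ℕ) + 1 = s := h
    omega
  · have h2 : (i : ℕ) + 1 = s := h
    omega
  · have h2 : (i : ℕ) ≤ i' + 1 := h.2.2.1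
    have h3 : (i' : ℕ) ≤ i + 1 := h.2.2.2
    have h4 := lag_near h.2.1 r
    have h5 := i.2
    have h6 := i'.2
    omega

lemma ex_adj {x x' : Vtx B D s} (h : (T B D s).Adj x x') (y : Vtx B D s) (r r' : List (Fin B)) :
    ex x y r r' ≤ ex x' y r r' + 1 := by
  unfold ex
  have h1 := lev_adj h
  have h2 := dst_adj h r
  omega

lemma base_adj {κ : ℝ} (hκ : 0 ≤ κ) {a b : ℕ} (h : a ≤ b + 1) : κ / 2 ^ b ≤ 2 * (κ / 2 ^ a) := by
  have h1 : (2 : ℝ) ^ a ≤ 2 * 2 ^ b := by
    rw [← pow_succ']
    exact pow_le_pow_right₀ (by norm_num) h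
  rw [← mul_div_assoc, div_le_div_iff₀ (by positivity) (by positivity)]
  nlinarith

/-- A step in the first coordinate. -/
lemma step_left {κ : ℝ} (hκ : 0 ≤ κ) (hκ2 : ∀ j < s, g (s - 1) j ≤ 3 / 4 * κ)
    {x x' y : Vtx B D s} {r r' : List (Fin B)} (h : (T B D s).Adj x x') (hf : fresh x y r r') :
    phi κ x' y r r' ≤ 2 * psi κ x y r r' := by
  have hb : κ / 2 ^ ex x' y r r' ≤ 2 * (κ / 2 ^ ex x y r r') := base_adj hκ (ex_adj h y r r')
  have h0 : N x' y r r' = 0 → phi κ x' y r r' ≤ 2 * psi κ x y r r' := by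
    intro h1
    unfold phi psi
    rw [h1]
    linarith [M_nonneg x y r r']
  rcases y with _ | ⟨w2, j⟩
  · exact h0 (by cases x' <;> rfl)
  rcases x' with _ | ⟨w', i'⟩
  · exact h0 rfl
  by_cases hlag : lag w'.1 r = 0 ∧ lag w2.1 r' = 0
  swap
  · exact h0 (by simp only [N]; rw [if_neg hlag])
  rcases x with _ | ⟨w, i⟩
  · -- from the apex
    have hi' : (i' : ℕ) + 1 = s := h
    have hj := j.2
    have hi2 : (i' : ℕ) = s - 1 := by omega
    have e1 : ex (none : Vtx B D s) (some (w2, j)) r r' = s + j := by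
      simp only [ex, lev, dst, hlag.2]
      omega
    have e2 : ex (some (w', i') : Vtx B D s) (some (w2, j)) r r' = s + j + 1 := by
      simp only [ex, lev, dst, hlag.1, hlag.2]
      omega
    have e3 : N (some (w', i') : Vtx B D s) (some (w2, j)) r r' = g (s - 1) j / 2 ^ (s - 1 + j) := by
      simp only [N]
      rw [if_pos hlag, hi2]
    unfold phi psi
    rw [e1, e2, e3]
    have e4 : (2 : ℝ) ^ (s + (j : ℕ)) = 2 * 2 ^ (s - 1 + (j : ℕ)) := by
      rw [← pow_succ']
      congr 1
      omega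
    have e5 : (2 : ℝ) ^ (s + (j : ℕ) + 1) = 4 * 2 ^ (s - 1 + (j : ℕ)) := by
      rw [pow_succ, e4]
      ring
    have hg := hκ2 j hj
    have hM := M_nonneg (none : Vtx B D s) (some (w2, j)) r r'
    have hp : (0 : ℝ) < 2 ^ (s - 1 + (j : ℕ)) := by positivity
    have h5 : κ / 2 ^ (s + (j : ℕ) + 1) + g (s - 1) j / 2 ^ (s - 1 + (j : ℕ)) ≤
        2 * (κ / 2 ^ (s + (j : ℕ))) := by
      rw [e4, e5]
      have h6 : 2 * (κ / (2 * 2 ^ (s - 1 + (j : ℕ)))) -
          (κ / (4 * 2 ^ (s - 1 + (j : ℕ))) + g (s - 1) j / 2 ^ (s - 1 + (j : ℕ))) =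
          (3 / 4 * κ - g (s - 1) j) / 2 ^ (s - 1 + (j : ℕ)) := by
        field_simp
        ring
      have h7 : 0 ≤ (3 / 4 * κ - g (s - 1) j) / 2 ^ (s - 1 + (j : ℕ)) :=
        div_nonneg (by linarith) hp.le
      linarith
    linarith
  · -- along the track
    have h2 : (i : ℕ) ≤ i' + 1 := h.2.2.1
    have h3 : (i' : ℕ) ≤ i + 1 := h.2.2.2
    have h4 := lag_near h.2.1 r
    rw [hlag.1] at h4
    have h5 : lag w.1 r = 1 := by
      simp only [fresh] at hf
      have : lag w.1 r ≠ 0 := fun h6 => hf ⟨h6, hlag.2⟩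
      omega
    have e1 : N (some (w', i') : Vtx B D s) (some (w2, j)) r r' = g i' j / 2 ^ ((i' : ℕ) + j) := by
      simp only [N]
      rw [if_pos hlag]
    have e2 : M (some (w, i) : Vtx B D s) (some (w2, j)) r r' = u i j / 2 ^ ((i : ℕ) + j) := by
      simp only [M]
      rw [if_pos ⟨h5, hlag.2⟩]
    unfold phi psi
    rw [e1, e2]
    have key : ∀ a b c : ℕ, a ≤ b + 1 → b ≤ a + 1 →
        g b c / 2 ^ (b + c) ≤ 2 * (u a c / 2 ^ (a + c)) := by
      intro a b c hab hba
      rcases Nat.lt_trichotomy a b with hlt | heq | hgt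
      · obtain rfl : b = a + 1 := by omega
        rw [show a + 1 + c = a + c + 1 by ring, pow_succ, ← mul_div_assoc,
          div_le_div_iff₀ (by positivity) (by positivity)]
        have h8 : g (a + 1) c ≤ 4 * u a c := by
          cases a with
          | zero => simp only [u]; have := g_succ_le 0 c; linarith
          | succ a =>
            simp only [u]
            have h9 := g_succ_le (a + 1) c
            have h10 := g_succ_le a c
            linarith
        have hp : (0 : ℝ) < 2 ^ (a + c) := by positivity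
        nlinarith
      · subst heq
        rw [← mul_div_assoc]
        refine div_le_div_of_nonneg_right ?_ (by positivity)
        cases a with
        | zero => simp only [u]; linarith
        | succ a => simp only [u]; exact g_succ_le a c
      · obtain rfl : a = b + 1 := by omega
        rw [show b + 1 + c = b + c + 1 by ring, pow_succ, ← mul_div_assoc]
        simp only [u]
        rw [div_le_div_iff₀ (by positivity) (by positivity)]
        apply le_of_eq
        ring
    have := key i i' j h2 h3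
    linarith

/-- The coin of the robber. -/
lemma u_add (i j : ℕ) : u i j + u j i ≤ 2 * g i j := by
  cases i with
  | zero =>
    cases j with
    | zero => simp only [u]; linarith [g_pos 0 0]
    | succ j =>
      simp only [u]
      have := g_axis j
      rw [g_comm j 0]
      linarith
  | succ i =>
    cases j with
    | zero =>
      simp only [u]
      have := g_axis i
      rw [g_comm i 0, g_comm (i + 1) 0]
      linarith
    | succ j =>
      simp only [u]
      have := g_super i j
      rw [g_comm j (i + 1)]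
      linarith

lemma dst_cons {x : Vtx B D s} {r : List (Fin B)} {c : Fin B}
    (hc : ∀ w i, x = some (w, i) → ¬ (c :: r) <:+ w.1) : dst x r ≤ dst x (c :: r) := by
  rcases x with _ | ⟨w, i⟩
  · exact le_refl _
  · simp only [dst]
    rw [lag_cons (hc w i rfl)]
    omega

lemma coin {κ : ℝ} (hκ : 0 ≤ κ) {x y : Vtx B D s} {r r' : List (Fin B)} {c c' : Fin B}
    (hc : ∀ w i, x = some (w, i) → ¬ (c :: r) <:+ w.1)
    (hc' : ∀ w i, y = some (w, i) → ¬ (c' :: r') <:+ w.1) :
    psi κ x y (c :: r) r' + psi κ x y r (c' :: r') ≤ 2 * phi κ x y r r' := by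
  have hd := dst_cons hc
  have hd' := dst_cons hc'
  have h1 : ex x y r r' ≤ ex x y (c :: r) r' := by unfold ex; omega
  have h2 : ex x y r r' ≤ ex x y r (c' :: r') := by unfold ex; omega
  have b1 : κ / 2 ^ ex x y (c :: r) r' ≤ κ / 2 ^ ex x y r r' :=
    div_le_div_of_nonneg_left hκ (by positivity) (pow_le_pow_right₀ (by norm_num) h1)
  have b2 : κ / 2 ^ ex x y r (c' :: r') ≤ κ / 2 ^ ex x y r r' :=
    div_le_div_of_nonneg_left hκ (by positivity) (pow_le_pow_right₀ (by norm_num) h2)
  have h3 : M x y (c :: r) r' + M x y r (c' :: r') ≤ 2 * N x y r r' := by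
    rcases x with _ | ⟨w, i⟩ <;> rcases y with _ | ⟨w', j⟩
    · simp [M, N]
    · simp [M, N]
    · simp [M, N]
    · simp only [M, N]
      rw [lag_cons (hc w i rfl), lag_cons (hc' w' j rfl)]
      by_cases hz : lag w.1 r = 0 ∧ lag w'.1 r' = 0
      · rw [hz.1, hz.2]
        simp only [zero_add, and_self, if_true, one_ne_zero, if_false, zero_ne_one]
        rw [← add_div, ← mul_div_assoc]
        exact div_le_div_of_nonneg_right (u_add _ _) (by positivity)
      · have n1 : ¬ (lag w.1 r + 1 = 1 ∧ lag w'.1 r' = 0) := fun hh => hz ⟨by omega, hh.2⟩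
        have n2 : ¬ (lag w.1 r + 1 = 0 ∧ lag w'.1 r' = 1) := fun hh => by omega
        have n3 : ¬ (lag w.1 r = 1 ∧ lag w'.1 r' + 1 = 0) := fun hh => by omega
        have n4 : ¬ (lag w.1 r = 0 ∧ lag w'.1 r' + 1 = 1) := fun hh => hz ⟨hh.1, by omega⟩
        rw [if_neg n1, if_neg n2, if_neg n3, if_neg n4, if_neg hz]
        simp
  unfold psi phi
  linarith

end Pool.Agent.Q293.CP
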